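import Pool.Agent.Y257.KR.Sig

open MeasureTheory Metric Set
open Pool.Agent.Helper119.Kral Pool.Agent.Y257.KR

namespace Pool.Agent.Results.MP_c751e8_an.PointwiseTaylor

/-- In (1), (2), (3): `G' ⊆ G` are open, `f` is continuous on `G`, subharmonic on `G'` and real
differentiable at each point of `G \ G'`; nothing else is assumed about the smoothness of `f`. Let
`T` be the set of the points of `G \ G'` with nonzero gradient.
(1) Let `T` be covered by sets `S j`, with gauges `ω j`, such that for each `j` either `f` has at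
each point of `S j` a first-order Taylor remainder `O(|w - z| ω_j(|w - z|))` (constants depending on
the point) and `f(S j)` has zero Hausdorff `ω_j`-measure, or the remainder is
`o(|w - z| ω_j(|w - z|))` uniformly on `S j` and `f(S j)` has sigma-finite Hausdorff `ω_j`-measure.
Then `f` is subharmonic on `G`.
(2) Let all compact subsets of `E` have zero `ω`-measure. If `f(T) ⊆ E` and the remainder is
`O(|w - z| ω(|w - z|))` at each point of `T`, then `f` is subharmonic on `G`; in particular `E` is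
negligible `(C^{1,ω}, S)`.
(3) Let all compact subsets of `E` have sigma-finite `ω`-measure. If `f(T) ⊆ E` and the remainder is
`o(|w - z| ω(|w - z|))`, uniformly on compact subsets of `T`, then `f` is subharmonic on `G`; in
particular `E` is negligible `(C^{1,ω}_*, S)`. -/
theorem result :
    (∀ G : Set ℂ, IsOpen G → ∀ f : ℂ → ℝ, ContinuousOn f G →
      ∀ G' : Set ℂ, IsOpen G' → G' ⊆ G → Subharmonic G' f →
      (∀ z ∈ G \ G', DifferentiableAt ℝ f z) →
      ∀ (S : ℕ → Set ℂ) (ω : ℕ → ℝ → ℝ), (∀ j, Gauge (ω j)) →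
      (∀ z ∈ G \ G', fderiv ℝ f z ≠ 0 → z ∈ ⋃ j, S j) →
      (∀ j, ((∀ z ∈ S j, TaylorO (ω j) f z) ∧ gaugeMeasure (ω j) (f '' S j) = 0) ∨
        (UnifTaylorLittleO G (ω j) f (S j) ∧ SigmaFiniteOn (ω j) (f '' S j))) →
      Subharmonic G f) ∧
    (∀ ω : ℝ → ℝ, Gauge ω → ∀ E : Set ℝ,
      (∀ K : Set ℝ, IsCompact K → K ⊆ E → gaugeMeasure ω K = 0) →
      (∀ G : Set ℂ, IsOpen G → ∀ f : ℂ → ℝ, ContinuousOn f G →
        ∀ G' : Set ℂ, IsOpen G' → G' ⊆ G → Subharmonic G' f →
        (∀ z ∈ G \ G', DifferentiableAt ℝ f z) →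
        (∀ z ∈ G \ G', fderiv ℝ f z ≠ 0 → f z ∈ E ∧ TaylorO ω f z) → Subharmonic G f) ∧
      Negligible (C1Omega ω) Subharmonic E) ∧
    (∀ ω : ℝ → ℝ, Gauge ω → ∀ E : Set ℝ,
      (∀ K : Set ℝ, IsCompact K → K ⊆ E → SigmaFiniteOn ω K) →
      (∀ G : Set ℂ, IsOpen G → ∀ f : ℂ → ℝ, ContinuousOn f G →
        ∀ G' : Set ℂ, IsOpen G' → G' ⊆ G → Subharmonic G' f →
        (∀ z ∈ G \ G', DifferentiableAt ℝ f z) →
        (∀ z ∈ G \ G', fderiv ℝ f z ≠ 0 → f z ∈ E) →
        (∀ K : Set ℂ, IsCompact K → K ⊆ {z ∈ G \ G' | fderiv ℝ f z ≠ 0} →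
          UnifTaylorLittleO G ω f K) → Subharmonic G f) ∧
      Negligible (C1OmegaStar ω) Subharmonic E) := by
  refine ⟨?_, ?_, ?_⟩
  · intro G _ f hf G' hG' _ hS hdiff S ω hω hcover hgood
    exact general_pointwise hf hG' hdiff hS hω hcover hgood
  · intro ω hω E hE
    refine ⟨?_, ?_⟩
    · intro G hG f hf G' hG' _ hS hdiff hmem
      exact gen_values_null hω hE hG hf hG' hdiff hS hmem
    · intro G hG f hf G' hG' hsub hS hmem
      exact main_null hω.1 hω.2.1 hω.2.2 hE hG hf.1 hG Subset.rfl hf hG' hS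
        (fun z hz _ => ⟨hz.1, hmem z hz⟩)
  · intro ω hω E hE
    refine ⟨?_, ?_⟩
    · intro G hG f hf G' hG' _ hS hdiff hmem ho
      exact gen_values_sigma hω hE hG hf hG' hdiff hS hmem ho
    · intro G hG f hf G' hG' hsub hS hmem
      exact main_sigmaFinite hω.1 hω.2.1 hω.2.2 hE hG hf.1 hG Subset.rfl hf hG' hS
        (fun z hz _ => ⟨hz.1, hmem z hz⟩)

end Pool.Agent.Results.MP_c751e8_an.PointwiseTaylor
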